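import Mathlib

set_option autoImplicit false

namespace Pool.Agent.H.MP_462cdc_an

open Metric Filter Topology

theorem dense_U {E Y : Type} [NormedAddCommGroup E] [NormedSpace ℝ E] [NormedAddCommGroup Y]
    [NormedSpace ℝ Y] (P : E →L[ℝ] Y)
    (hA : ∀ u v, P u ≠ 0 → ‖u + v‖ = ‖u‖ + ‖v‖ → ∃ c : ℝ, 0 ≤ c ∧ v = c • u)
    (hB : ∀ K : Set Y, IsCompact K → Dense {x | P x ∉ K}) (G : Set E) (hG : IsCompact G)
    (hne : G.Nonempty) : Dense {x | {g ∈ G | ‖x - g‖ = infDist x G}.Subsingleton} := by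
  refine fun x => closure_minimal ?_ isClosed_closure (hB _ (hG.image P.continuous) x)
  intro x hx
  obtain ⟨g, hg, hd⟩ := hG.exists_infDist_eq_dist hne x
  rw [dist_eq_norm] at hd
  have hP : P (x - g) ≠ 0 := fun e => hx ⟨g, hg, by rw [map_sub, sub_eq_zero] at e; exact e.symm⟩
  have r0 : 0 < ‖x - g‖ := norm_pos_iff.2 fun e => hP (by rw [e, map_zero])
  have lim : Tendsto (fun s : ℝ => x - s • (x - g)) (𝓝[>] 0) (𝓝 x) := by
    have : Continuous fun s : ℝ => x - s • (x - g) := by fun_prop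
    simpa using (this.tendsto 0).mono_left nhdsWithin_le_nhds
  refine mem_closure_of_tendsto lim ?_
  filter_upwards [Ioo_mem_nhdsGT (zero_lt_one' ℝ)] with s hs
  have key : ∀ g' ∈ G, ‖x - s • (x - g) - g'‖ = infDist (x - s • (x - g)) G → g' = g := by
    intro g' hg' h
    have h1 : infDist (x - s • (x - g)) G ≤ (1 - s) * ‖x - g‖ := by
      refine (infDist_le_dist_of_mem hg).trans_eq ?_
      rw [dist_eq_norm, show x - s • (x - g) - g = (1 - s) • (x - g) by module, norm_smul,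
        Real.norm_of_nonneg (by linarith [hs.2])]
    have h2 : ‖x - g‖ ≤ ‖s • (x - g) + (x - s • (x - g) - g')‖ := by
      rw [← hd, show s • (x - g) + (x - s • (x - g) - g') = x - g' by module, ← dist_eq_norm]
      exact infDist_le_dist_of_mem hg'
    have h3 := norm_add_le (s • (x - g)) (x - s • (x - g) - g')
    have h4 : ‖s • (x - g)‖ = s * ‖x - g‖ := by rw [norm_smul, Real.norm_of_nonneg hs.1.le]
    obtain ⟨c, c0, hc⟩ := hA (s • (x - g)) (x - s • (x - g) - g')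
      (by rw [map_smul]; exact smul_ne_zero hs.1.ne' hP) (by linarith)
    have h5 : ‖x - s • (x - g) - g'‖ = c * (s * ‖x - g‖) := by
      rw [hc, norm_smul, Real.norm_of_nonneg c0, h4]
    have h6 : c * s = 1 - s := by
      apply mul_right_cancel₀ r0.ne'
      linarith
    rw [smul_smul, h6] at hc
    linear_combination (norm := module) -hc
  rintro a ⟨a1, a2⟩ b ⟨b1, b2⟩
  rw [key a a1 a2, key b b1 b2]

theorem gdelta {E : Type} [NormedAddCommGroup E] (G : Set E) (hG : IsCompact G) :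
    IsGδ {x | {g ∈ G | ‖x - g‖ = infDist x G}.Subsingleton} := by
  have : CompactSpace G := isCompact_iff_compactSpace.1 hG
  have e : {x | {g ∈ G | ‖x - g‖ = infDist x G}.Subsingleton} = ⋂ n : ℕ, (Prod.fst ''
      {p : E × (G × G) | ‖p.1 - p.2.1‖ = infDist p.1 G ∧ ‖p.1 - p.2.2‖ = infDist p.1 G ∧
        1 / ((n : ℝ) + 1) ≤ dist p.2.1 p.2.2})ᶜ := by
    ext x
    simp only [Set.mem_ofPred_eq, Set.mem_iInter, Set.mem_compl_iff]
    constructor
    · rintro h n ⟨⟨y, a, b⟩, ⟨h1, h2, h3⟩, rfl⟩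
      have : a = b := Subtype.ext (h ⟨a.2, h1⟩ ⟨b.2, h2⟩)
      simp only [this, dist_self] at h3
      exact absurd h3 (not_le.2 Nat.one_div_pos_of_nat)
    · rintro h a ⟨a1, a2⟩ b ⟨b1, b2⟩
      by_contra hab
      obtain ⟨n, hn⟩ := exists_nat_one_div_lt (dist_pos.2 hab)
      exact h n ⟨(x, ⟨a, a1⟩, ⟨b, b1⟩), ⟨a2, b2, hn.le⟩, rfl⟩
  rw [e]
  refine IsGδ.iInter_of_isOpen fun n => (isClosedMap_fst_of_compactSpace _ ?_).isOpen_compl
  have c := (continuous_infDist_pt G).comp (continuous_fst (X := E) (Y := G × G))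
  have c1 : Continuous fun p : E × (G × G) => ‖p.1 - p.2.1‖ := by fun_prop
  have c2 : Continuous fun p : E × (G × G) => ‖p.1 - p.2.2‖ := by fun_prop
  have c3 : Continuous fun p : E × (G × G) => dist p.2.1 p.2.2 := by fun_prop
  exact (isClosed_eq c1 c).inter ((isClosed_eq c2 c).inter (isClosed_le continuous_const c3))

abbrev Y := lp (fun _ : ℕ => ℝ) 2
abbrev H := WithLp 2 (ℝ × Y)
abbrev W := WithLp 1 (H × H)

theorem inf_dim : ¬ FiniteDimensional ℝ Y := by
  intro h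
  have o : Orthonormal ℝ fun n : ℕ => (lp.single 2 n 1 : Y) := by
    rw [orthonormal_iff_ite]
    intro i j
    rw [lp.inner_single_left, lp.single_apply, Pi.single_apply]
    simp
  exact Module.Finite.not_linearIndependent_of_infinite _ o.linearIndependent

noncomputable def p1 : W →L[ℝ] Y := (WithLp.sndL 2 ℝ ℝ Y).comp (WithLp.fstL 1 ℝ H H)
noncomputable def p2 : W →L[ℝ] Y := (WithLp.sndL 2 ℝ ℝ Y).comp (WithLp.sndL 1 ℝ H H)

noncomputable def S : Submodule ℝ W := (p1 - p2).ker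

theorem memS (w : W) : w ∈ S ↔ w.fst.snd = w.snd.snd := by
  simp [S, p1, p2, sub_eq_zero]

instance : CompleteSpace S := (p1 - p2).isClosed_ker.completeSpace_coe

noncomputable def P : S →L[ℝ] Y := p1.comp S.subtypeL

theorem P_apply (u : S) : P u = u.1.fst.snd := rfl

theorem normS (u : S) : ‖u‖ = ‖u.1.fst‖ + ‖u.1.snd‖ := WithLp.prod_norm_eq_of_L1 u.1

theorem hA (u v : S) (h : P u ≠ 0) (e : ‖u + v‖ = ‖u‖ + ‖v‖) : ∃ c : ℝ, 0 ≤ c ∧ v = c • u := by
  rw [normS, normS, normS] at e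
  have e1 : (u + v).1.fst = u.1.fst + v.1.fst := rfl
  have e2 : (u + v).1.snd = u.1.snd + v.1.snd := rfl
  rw [e1, e2] at e
  have n1 := norm_add_le u.1.fst v.1.fst
  have n2 := norm_add_le u.1.snd v.1.snd
  have hu := (memS _).1 u.2
  have hv := (memS _).1 v.2
  rw [P_apply] at h
  obtain ⟨c, c0, hc⟩ := (sameRay_iff_norm_add.2 (by linarith) :
    SameRay ℝ u.1.fst v.1.fst).exists_nonneg_left fun q => h (by rw [q]; rfl)
  obtain ⟨d, -, hd⟩ := (sameRay_iff_norm_add.2 (by linarith) :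
    SameRay ℝ u.1.snd v.1.snd).exists_nonneg_left fun q => h (by rw [hu, q]; rfl)
  have : c = d := by
    rw [← hc, ← hd] at hv
    have q : c • u.1.fst.snd = d • u.1.fst.snd := by
      nth_rewrite 2 [hu]; exact hv
    exact smul_left_injective ℝ h q
  subst this
  refine ⟨c, c0, Subtype.ext ?_⟩
  apply (WithLp.equiv 1 _).injective
  exact Prod.ext hc.symm hd.symm

theorem hB (K : Set Y) (hK : IsCompact K) : Dense {x | P x ∉ K} := by
  intro x
  rw [Metric.mem_closure_iff]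
  intro ε hε
  have : ¬ closedBall (P x) (ε / 3) ⊆ K := fun h => inf_dim
    (FiniteDimensional.of_isCompact_closedBall ℝ (by linarith)
      (hK.of_isClosed_subset isClosed_closedBall h))
  obtain ⟨y, h1, h2⟩ := Set.not_subset.1 this
  let z : H := WithLp.toLp 2 (0, y - P x)
  have nz : ‖z‖ = ‖y - P x‖ := by
    rw [WithLp.prod_norm_eq_of_L2]; simp [z]
  let w : S := ⟨WithLp.toLp 1 (z, z), (memS _).2 rfl⟩
  refine ⟨x + w, ?_, ?_⟩
  · have : P (x + w) = y := by
      rw [map_add, P_apply w]; simp [w, z]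
    simpa only [Set.mem_ofPred_eq, this] using h2
  · rw [mem_closedBall, dist_eq_norm] at h1
    have : ‖w‖ = ‖z‖ + ‖z‖ := normS w
    rw [dist_self_add_right, this, nz]
    linarith

theorem flat : ∃ x y : S, ‖x‖ = 1 ∧ ‖y‖ = 1 ∧ x ≠ y ∧ ‖(1 / 2 : ℝ) • (x + y)‖ = 1 := by
  let e : H := WithLp.toLp 2 (1, 0)
  have ne : ‖e‖ = 1 := by
    rw [WithLp.prod_norm_eq_of_L2]; simp [e]
  refine ⟨⟨WithLp.toLp 1 (e, 0), (memS _).2 rfl⟩, ⟨WithLp.toLp 1 (0, e), (memS _).2 rfl⟩,
    by rw [normS]; simp [ne], by rw [normS]; simp [ne], fun h => ?_, ?_⟩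
  · have : e = 0 := congrArg (fun u : S => u.1.fst) h
    simp [this] at ne
  · rw [norm_smul, normS]; simp [ne]; norm_num

end Pool.Agent.H.MP_462cdc_an
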